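import Pool.Agent.Q260.DJ.Stm

set_option autoImplicit false

/-! Job BK of project DJ: one step backwards. -/

namespace Pool.Agent.Q144.DJ

open Complex Filter Topology Metric Set
open Pool.Agent.H24R2.JP (HH XX Om)
open Pool.Agent.Q260.DJ

lemma ee_le {C C' T δ : ℝ} (hC' : 1 ≤ C') (hCC : C' ≤ C) (hT : 1 ≤ Real.log T) (hok : Ok C T δ) :
    EE C' T δ ≤ C' / C * δ * Real.log T := by
  obtain ⟨h1, h2, h3⟩ := hok
  have hC : 0 < C := by linarith
  have hC0 : 0 < C' := by linarith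
  set l := Real.log T with hl
  have hl0 : 0 < l := by linarith
  have h4 : l ^ (1 - δ / C') ≤ l ^ (1 - δ / C) := by
    apply Real.rpow_le_rpow_of_exponent_le hT
    have : δ / C ≤ δ / C' := div_le_div_of_nonneg_left h1.le hC0 hCC
    linarith
  have h5 : l ^ (1 - δ / C) = l / l ^ (δ / C) := by
    rw [Real.rpow_sub hl0, Real.rpow_one]
  have h6 : l / l ^ (δ / C) ≤ l / (C / δ ^ 3) := by
    apply div_le_div_of_nonneg_left hl0.le (by positivity) h3
  calc EE C' T δ = C' / δ ^ 2 * l ^ (1 - δ / C') := rfl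
    _ ≤ C' / δ ^ 2 * (l / (C / δ ^ 3)) := by
        have := h4.trans (h5.le.trans h6)
        gcongr
    _ = C' / C * δ * l := by
        field_simp

lemma dl_ge {C T δ : ℝ} (hC : 1 ≤ C) (hT : 1 ≤ Real.log T) (hok : Ok C T δ) :
    Real.sqrt (Real.log T) / 4 ≤ δ * Real.log T / 2 := by
  obtain ⟨h1, h2, h3⟩ := hok
  set l := Real.log T with hl
  have hl0 : 0 < l := by linarith
  have hC0 : 0 < C := by linarith
  have h4 : 8 ≤ C / δ ^ 3 := by
    rw [le_div_iff₀ (by positivity)]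
    have : δ ^ 3 ≤ (1 / 2) ^ 3 := pow_le_pow_left₀ h1.le h2 3
    nlinarith
  have h5 : Real.log 8 ≤ Real.log (l ^ (δ / C)) := Real.log_le_log (by norm_num) (h4.trans h3)
  rw [Real.log_rpow hl0] at h5
  have h6 : 1 ≤ Real.log 8 := by
    rw [Real.le_log_iff_exp_le (by norm_num)]
    have := Real.exp_one_lt_d9
    linarith
  have hll : 0 ≤ Real.log l := Real.log_nonneg hT
  have h7 : δ / C * Real.log l ≤ δ * Real.log l := by
    apply mul_le_mul_of_nonneg_right _ hll
    exact div_le_self h1.le hC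
  have h8 : 1 ≤ δ * Real.log l := by linarith
  have hs0 : 0 < Real.sqrt l := Real.sqrt_pos.2 hl0
  have hs : Real.sqrt l * Real.sqrt l = l := Real.mul_self_sqrt hl0.le
  have h9 : Real.log l ≤ 2 * Real.sqrt l := by
    have e1 : Real.log l = 2 * Real.log (Real.sqrt l) := by
      rw [Real.log_sqrt hl0.le]; ring
    have e2 := Real.log_le_sub_one_of_pos hs0
    rw [e1]
    linarith
  have h10 : 1 ≤ δ * (2 * Real.sqrt l) := h8.trans (by gcongr)
  calc Real.sqrt l / 4 = 1 * Real.sqrt l / 4 := by ring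
    _ ≤ δ * (2 * Real.sqrt l) * Real.sqrt l / 4 := by gcongr
    _ = δ * (Real.sqrt l * Real.sqrt l) / 2 := by ring
    _ = δ * l / 2 := by rw [hs]

lemma exp_small {C2 l y : ℝ} (hC2 : 1 ≤ C2) (hl : 40000 * C2 ≤ l) (hy : Real.sqrt l / 4 ≤ y) :
    C2 * (l / 2) * Real.exp (-(3 / 4) * y) ≤ 1 / 4 ∧ Real.exp (-y) ≤ 1 / 4 := by
  have hl0 : 0 < l := by linarith
  have hs : Real.sqrt l * Real.sqrt l = l := Real.mul_self_sqrt hl0.le
  have hs0 : 0 < Real.sqrt l := Real.sqrt_pos.2 hl0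
  have hs1 : 200 ≤ Real.sqrt l := by
    apply Real.le_sqrt_of_sq_le
    nlinarith
  have hyp : 50 ≤ y := by linarith
  constructor
  · have h1 := Real.pow_div_factorial_le_exp (3 / 4 * y) (by linarith) 4
    have h2 : (3 / 4 * (Real.sqrt l / 4)) ^ 4 ≤ (3 / 4 * y) ^ 4 := by
      gcongr
    have h3 : (3 / 4 * (Real.sqrt l / 4)) ^ 4 = (81 / 65536) * (l * l) := by
      have : (3 / 4 * (Real.sqrt l / 4)) ^ 4 = (81 / 65536) *
        ((Real.sqrt l * Real.sqrt l) * (Real.sqrt l * Real.sqrt l)) := by ring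
      rw [this, hs]
    have h4 : (4 : ℕ).factorial = 24 := rfl
    rw [h4] at h1
    push_cast at h1
    have h5 : 81 / 65536 / 24 * (l * l) ≤ Real.exp (3 / 4 * y) := by
      refine le_trans ?_ h1
      rw [le_div_iff₀ (by norm_num)]
      linarith
    have e : Real.exp (-(3 / 4) * y) = (Real.exp (3 / 4 * y))⁻¹ := by
      rw [← Real.exp_neg]; ring_nf
    rw [e, ← div_eq_mul_inv, div_le_iff₀ (Real.exp_pos _)]
    have h6 : C2 * (l / 2) ≤ 1 / 4 * (81 / 65536 / 24 * (l * l)) := by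
      have h7 : 40000 * C2 * l ≤ l * l := by gcongr
      nlinarith
    linarith
  · have h1 := Real.add_one_le_exp y
    rw [Real.exp_neg, inv_le_comm₀ (Real.exp_pos _) (by norm_num)]
    norm_num
    linarith

/-- the logarithmic derivative of `deriv F` against that of `Op b F` -/
lemma op_ld (b : Bool) {F : ℂ → ℂ} (hF : ∀ z : ℂ, 0 < z.im → AnalyticAt ℂ F z) {z : ℂ}
    (hz : 3 ≤ z.im) (hG : Op b F z ≠ 0) :
    deriv F z ≠ 0 ∧ ‖logDeriv (deriv F) z - logDeriv (Op b F) z‖ ≤ 1 := by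
  have hzp : 0 < z.im := by linarith
  cases b
  · have e : Op false F = deriv F := by
      funext w
      simp [Op]
    rw [e] at hG ⊢
    refine ⟨hG, ?_⟩
    rw [sub_self, norm_zero]
    exact zero_le_one
  · have e : Op true F = fun w => deriv F w / (2 * w) := by
      funext w
      simp [Op]
    rw [e] at hG ⊢
    have h5 : deriv F z ≠ 0 := by
      intro h
      apply hG
      simp [h]
    refine ⟨h5, ?_⟩
    have hn : 3 ≤ ‖z‖ := by
      have := abs_im_le_norm z
      have := le_abs_self z.im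
      linarith
    have hz0 : z ≠ 0 := by
      intro h
      rw [h, norm_zero] at hn
      linarith
    have hz2 : 2 * z ≠ 0 := by simp [hz0]
    have e1 := logDeriv_div (f := deriv F) (g := fun z : ℂ => 2 * z) z h5 hz2
      (hF z hzp).deriv.differentiableAt (by fun_prop)
    have e2 : logDeriv (fun z : ℂ => 2 * z) z = 1 / z := by
      rw [logDeriv_apply]
      have e3 : deriv (fun z : ℂ => 2 * z) z = 2 := by
        have := ((hasDerivAt_id z).const_mul (2 : ℂ)).deriv
        simpa using this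
      rw [e3]
      field_simp
    rw [e1, e2, sub_sub_cancel, norm_div, norm_one, div_le_one (by linarith)]
    linarith

theorem t_BK (h1 : S_HA) (h2 : S_LB) (h3 : S_OD) (h4 : S_VI) : S_BK := by
  intro b F hF hG
  obtain ⟨C1, T1, hC1, hT1, hLB⟩ := h2 (Op b F) hG
  obtain ⟨C2, T2, hC2, hT2, hVI⟩ := h4 b F hF hG
  obtain ⟨K1, T3, hK1, hT3, hHA⟩ := h1.2
  obtain ⟨C, hC⟩ : ∃ C : ℝ, C = 64 * C1 + 24 * C2 := ⟨_, rfl⟩
  obtain ⟨T0, hT0⟩ : ∃ T0 : ℝ, T0 = max (max T1 T2) (max T3
    (Real.exp (40000 * C2 + 32 * (K1 + 1)))) := ⟨_, rfl⟩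
  refine ⟨C, T0, by rw [hC]; linarith, ?_, ?_⟩
  · rw [hT0]
    exact hT1.trans ((le_max_left _ _).trans (le_max_left _ _))
  intro T θ δ hT hθ0 hθ1 hok hNZ z hzT hz1 hz2
  have hTT1 : T1 ≤ T := (((le_max_left _ _).trans (le_max_left _ _)).trans hT0.ge).trans hT
  have hTT2 : T2 ≤ T := (((le_max_right _ _).trans (le_max_left _ _)).trans hT0.ge).trans hT
  have hTT3 : T3 ≤ T := (((le_max_left _ _).trans (le_max_right _ _)).trans hT0.ge).trans hT
  have hTE : Real.exp (40000 * C2 + 32 * (K1 + 1)) ≤ T :=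
    (((le_max_right _ _).trans (le_max_right _ _)).trans hT0.ge).trans hT
  have hTp : 0 < T := by linarith
  have hlog : 40000 * C2 + 32 * (K1 + 1) ≤ Real.log T := by
    rwa [Real.le_log_iff_exp_le hTp]
  have hlog1 : 1 ≤ Real.log T := by linarith
  obtain ⟨hδ0, hδ1, -⟩ := id hok
  have hC0 : 0 < C := by rw [hC]; linarith
  set l := Real.log T with hl
  set L := Real.log T / 2 with hL
  have hLp : 0 < L := by rw [hL]; linarith
  -- the error terms
  have hE1 : EE C1 T δ ≤ L / 64 := by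
    have e1 := ee_le hC1 (by rw [hC]; linarith) hlog1 hok
    have e2 : C1 / C ≤ 1 / 64 := by
      rw [div_le_iff₀ hC0, hC]
      linarith
    calc EE C1 T δ ≤ C1 / C * δ * Real.log T := e1
      _ ≤ 1 / 64 * (1 / 2) * Real.log T := by gcongr
      _ = L / 64 := by rw [hL]; ring
  have hE2 : 3 * EE C2 T δ ≤ 1 / 4 * (δ * l / 2) := by
    have e1 := ee_le hC2 (by rw [hC]; linarith) hlog1 hok
    have e2 : C2 / C ≤ 1 / 24 := by
      rw [div_le_iff₀ hC0, hC]
      linarith
    have e3 : C2 / C * δ * Real.log T ≤ 1 / 24 * δ * Real.log T := by gcongr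
    linarith
  have hNZ4 : NZ (Op b F) θ T 4 := by
    intro w a1 a2 a3
    refine hNZ w a1 a2 (a3.trans ?_)
    have : 4 ≤ C := by rw [hC]; linarith
    nlinarith
  have hNZ2 : NZ (Op b F) θ T (C2 * Real.log T) := by
    intro w a1 a2 a3
    refine hNZ w a1 a2 (a3.trans ?_)
    have : C2 ≤ C := by rw [hC]; linarith
    gcongr
  -- the horizontal segment
  obtain ⟨p, hp⟩ : ∃ p : ℝ → ℂ, p = fun x : ℝ => (x : ℂ) + I * T := ⟨_, rfl⟩
  have hpre : ∀ x, (p x).re = x := fun x => by rw [hp]; simp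
  have hpim : ∀ x, (p x).im = T := fun x => by rw [hp]; simp
  have hseg : ∀ x : ℝ, θ + δ ≤ x → x ≤ 3 → deriv F (p x) ≠ 0 ∧
      ‖logDeriv (deriv F) (p x) - (L : ℂ)‖ ≤ 1 / 8 * L := by
    intro x a1 a2
    obtain ⟨b1, -, b2⟩ := hLB T θ δ hTT1 hθ0 hθ1 hδ0 hδ1 hNZ4 (p x) (hpim x)
      (by rw [hpre]; exact a1) (by rw [hpre]; exact a2)
    obtain ⟨b3, b4⟩ := op_ld b hF.an (z := p x) (by rw [hpim]; linarith) b1
    obtain ⟨b5, -, -⟩ := hHA (p x) (by rw [hpre]; linarith) (by rw [hpre]; linarith)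
      (by rw [hpim]; exact hTT3)
    refine ⟨b3, ?_⟩
    rw [hpim] at b5
    have e0 : (Om T : ℂ) = (L : ℂ) := rfl
    rw [e0] at b5
    have e : logDeriv (deriv F) (p x) - (L : ℂ) =
        (logDeriv (deriv F) (p x) - logDeriv (Op b F) (p x)) +
        (logDeriv (Op b F) (p x) - logDeriv HH (p x)) + (logDeriv HH (p x) - (L : ℂ)) := by ring
    rw [e]
    refine (norm_add_le _ _).trans ?_
    have := norm_add_le (logDeriv (deriv F) (p x) - logDeriv (Op b F) (p x))
      (logDeriv (Op b F) (p x) - logDeriv HH (p x))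
    have hK : K1 + 1 ≤ L / 16 := by rw [hL]; linarith
    linarith
  -- the function `u`
  have hpd : ∀ x : ℝ, HasDerivAt p 1 x := by
    intro x
    rw [hp]
    simpa using (hasDerivAt_id x).ofReal_comp.add_const (I * (T : ℂ))
  have hFan : ∀ x : ℝ, AnalyticAt ℂ F (p x) := fun x => hF.an _ (by rw [hpim]; exact hTp)
  have hcx : ∀ x ∈ Icc (θ + δ) z.re,
      HasDerivAt (fun x => F (p x) / deriv F (p x))
        (1 - logDeriv (deriv F) (p x) * (F (p x) / deriv F (p x))) x := by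
    intro x hx
    obtain ⟨b1, -⟩ := hseg x hx.1 (by linarith [hx.2])
    have d1 : HasDerivAt (fun x => F (p x)) (deriv F (p x)) x := by
      have := (hFan x).differentiableAt.hasDerivAt.comp x (hpd x)
      rw [mul_one] at this
      exact this
    have d2 : HasDerivAt (fun x => deriv F (p x)) (deriv (deriv F) (p x)) x := by
      have := (hFan x).deriv.differentiableAt.hasDerivAt.comp x (hpd x)
      rw [mul_one] at this
      exact this
    have d3 := d1.div d2 b1
    refine d3.congr_deriv ?_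
    rw [logDeriv_apply]
    field_simp
  have hzeq : p z.re = z := by
    rw [hp]
    apply Complex.ext
    · simp
    · simp [hzT]
  have key := h3 (fun x => F (p x) / deriv F (p x)) (fun x => logDeriv (deriv F) (p x))
    (θ + δ) z.re L (1 / 8) (C2 * Real.exp (3 * EE C2 T δ)) (by linarith) hLp (by norm_num)
    (by norm_num) hcx ?_ (fun x hx => (hseg x hx.1 (by linarith [hx.2])).2) ?_ z.re
    ⟨by linarith, le_rfl⟩
  · -- conclusion
    intro hzero
    simp only [hzeq, hzero, zero_div, zero_sub, norm_neg] at key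
    have e1 : ‖(1 : ℂ) / (L : ℂ)‖ = 1 / L := by
      rw [norm_div, norm_one, Complex.norm_real, Real.norm_eq_abs, abs_of_pos hLp]
    rw [e1] at key
    obtain ⟨y, hy⟩ : ∃ y : ℝ, y = δ * l / 2 := ⟨_, rfl⟩
    have hyl : y = δ * L := by rw [hy, hL]; ring
    have hdl := dl_ge (C := C) (by rw [hC]; linarith) hlog1 hok
    rw [← hl, ← hy] at hdl
    rw [← hy] at hE2
    obtain ⟨s1, s2⟩ := exp_small hC2 (l := l) (by linarith) hdl
    have e2 : Real.exp (-(L / 2) * (z.re - (θ + δ))) ≤ Real.exp (-y) := by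
      apply Real.exp_le_exp.2
      rw [hyl]
      nlinarith
    have e3 : C2 * Real.exp (3 * EE C2 T δ) ≤ C2 * Real.exp (1 / 4 * y) := by gcongr
    have e4 : Real.exp (-(L / 2) * (z.re - (θ + δ))) * (C2 * Real.exp (3 * EE C2 T δ) + 1 / L) ≤
        Real.exp (-y) * (C2 * Real.exp (1 / 4 * y) + 1 / L) := by gcongr
    have e5 : Real.exp (-y) * (C2 * Real.exp (1 / 4 * y)) = C2 * Real.exp (-(3 / 4) * y) := by
      rw [mul_left_comm, ← Real.exp_add]
      congr 2
      ring
    have e6 : Real.exp (-y) * (C2 * Real.exp (1 / 4 * y) + 1 / L) ≤ 1 / 2 * (1 / L) := by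
      rw [mul_add, e5]
      have f1 : C2 * Real.exp (-(3 / 4) * y) ≤ 1 / 4 * (1 / L) := by
        rw [mul_one_div, le_div_iff₀ hLp]
        have : C2 * (l / 2) * Real.exp (-(3 / 4) * y) = C2 * Real.exp (-(3 / 4) * y) * L := by
          rw [hL]; ring
        linarith
      have f2 : Real.exp (-y) * (1 / L) ≤ 1 / 4 * (1 / L) := by gcongr
      linarith
    have e7 : 2 * (1 / 8 : ℝ) / L = 1 / 4 * (1 / L) := by ring
    rw [e7] at key
    have hpos : 0 < 1 / L := by positivity
    linarith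
  · -- continuity
    intro x hx
    obtain ⟨b1, -⟩ := hseg x hx.1 (by linarith [hx.2])
    have c1 : AnalyticAt ℂ (logDeriv (deriv F)) (p x) := (hFan x).deriv.deriv.div (hFan x).deriv b1
    exact (ContinuousAt.comp (f := p) (g := logDeriv (deriv F)) c1.continuousAt
      (hpd x).continuousAt).continuousWithinAt
  · -- the initial value
    have v := hVI T θ δ hTT2 hθ0 hθ1 hδ0 hδ1 hNZ2
    obtain ⟨b1, -⟩ := hseg (θ + δ) le_rfl (by linarith)
    have e : p (θ + δ) = ((θ + δ : ℝ) : ℂ) + I * T := by rw [hp]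
    rw [← e] at v
    rw [norm_div, div_le_iff₀ (norm_pos_iff.2 b1)]
    exact v

end Pool.Agent.Q144.DJ
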