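import Pool.Agent.Q260.DJ.Stm

set_option autoImplicit false

/-! Job CD of project DJ: the class is closed under the operations. -/

namespace Pool.Agent.Q144.DJ

open Complex Filter Topology Metric Set
open Pool.Agent.H24R2.JP (HH XX Om)
open Pool.Agent.Q260.DJ

lemma three_ne {z : ℂ} (h : 3 ≤ z.im) : z ≠ 0 ∧ 3 ≤ ‖z‖ := by
  have h1 : 3 ≤ ‖z‖ := by
    have := abs_im_le_norm z
    have := le_abs_self z.im
    linarith
  refine ⟨fun h0 => ?_, h1⟩
  rw [h0, norm_zero] at h1
  linarith

lemma near {z w : ℂ} {r : ℝ} (h : ‖w - z‖ ≤ r) : z.re - r ≤ w.re ∧ w.re ≤ z.re + r ∧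
    z.im - r ≤ w.im ∧ w.im ≤ z.im + r := by
  have h1 := abs_re_le_norm (w - z)
  have h2 := abs_im_le_norm (w - z)
  rw [sub_re, abs_le] at h1
  rw [sub_im, abs_le] at h2
  refine ⟨?_, ?_, ?_, ?_⟩ <;> linarith [h1.1, h1.2, h2.1, h2.2]

lemma one_le_log {t : ℝ} (ht : 3 ≤ t) : 1 ≤ Real.log t := by
  rw [Real.le_log_iff_exp_le (by linarith)]
  have := Real.exp_one_lt_d9
  linarith

/-- division by `2 z` -/
lemma cl_div {F : ℂ → ℂ} (hF : Cl F) : Cl (fun z => F z / (2 * z)) := by
  refine ⟨?_, ?_, ?_, ?_⟩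
  · intro z hz
    have hz0 : 2 * z ≠ 0 := by
      intro h
      have : z = 0 := by simpa using h
      rw [this] at hz
      simp at hz
    exact (hF.an z hz).div (by fun_prop) hz0
  · intro a B ha hB
    obtain ⟨A, T0, hA, hT0, h⟩ := hF.grow a B ha hB
    refine ⟨A, T0, hA, hT0, fun z h1 h2 h3 => ?_⟩
    refine le_trans ?_ (h z h1 h2 h3)
    have h4 := (three_ne (hT0.trans h3)).2
    rw [norm_div]
    apply div_le_self (norm_nonneg _)
    rw [norm_mul]
    simp
    linarith
  · intro a B ha hB
    obtain ⟨C, T0, hC, hT0, h⟩ := hF.right a B ha hB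
    refine ⟨C + 1, T0, by linarith, hT0, fun z h1 h2 h3 => ?_⟩
    obtain ⟨h5, h6⟩ := h z h1 h2 h3
    have h4 := three_ne (hT0.trans h3)
    have hz0 : 2 * z ≠ 0 := by simpa using h4.1
    have hzi : 0 < z.im := by linarith
    refine ⟨div_ne_zero h5 hz0, ?_⟩
    have e : logDeriv (fun z => F z / (2 * z)) z = logDeriv F z - 1 / z := by
      have e1 := logDeriv_div (f := F) (g := fun z : ℂ => 2 * z) z h5 hz0
        (hF.an z hzi).differentiableAt (by fun_prop)
      rw [e1]
      congr 1
      rw [logDeriv_apply]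
      have e2 : deriv (fun z : ℂ => 2 * z) z = 2 := by
        have := ((hasDerivAt_id z).const_mul (2 : ℂ)).deriv
        simpa using this
      rw [e2]
      field_simp
    rw [e]
    have e3 : logDeriv F z - 1 / z - logDeriv HH z = (logDeriv F z - logDeriv HH z) - 1 / z := by ring
    rw [e3]
    refine (norm_sub_le _ _).trans (add_le_add h6 ?_)
    rw [norm_div, norm_one, div_le_one (by linarith)]
    linarith
  · obtain ⟨k, j, C, T0, hC, hT0, h⟩ := hF.mass
    refine ⟨k, j + 1, 4 * C, T0, by linarith, hT0, fun t ht => ?_⟩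
    obtain ⟨h1, h2⟩ := h t ht
    have ht3 : 3 ≤ t := hT0.trans ht
    have ht0 : 0 < t := by linarith
    have hC0 : 0 < C := by linarith
    have hL : 0 ≤ Real.log t := by linarith [one_le_log ht3]
    set z : ℂ := 3 + I * t with hz
    have hzre : z.re = 3 := by rw [hz]; simp
    have hzim : z.im = t := by rw [hz]; simp
    have hn1 : t ≤ ‖z‖ := by
      have := abs_im_le_norm z
      rw [hzim] at this
      exact (le_abs_self t).trans this
    have hn2 : ‖z‖ ≤ 2 * t := by
      refine (norm_le_abs_re_add_abs_im z).trans ?_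
      rw [hzre, hzim, abs_of_nonneg (by norm_num : (0 : ℝ) ≤ 3), abs_of_nonneg (by linarith)]
      linarith
    have e1 : ‖F z / (2 * z)‖ / ‖HH z‖ = ‖F z‖ / ‖HH z‖ / (2 * ‖z‖) := by
      rw [norm_div, norm_mul]
      simp
      ring
    rw [e1]
    have hz0 : 0 < ‖z‖ := by linarith
    have hm : 0 ≤ Real.log t ^ k / t ^ j := by positivity
    constructor
    · calc Real.log t ^ k / t ^ (j + 1) / (4 * C) = (Real.log t ^ k / t ^ j / C) / (4 * t) := by
            rw [pow_succ]
            field_simp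
        _ ≤ (‖F z‖ / ‖HH z‖) / (4 * t) := by gcongr
        _ ≤ (‖F z‖ / ‖HH z‖) / (2 * ‖z‖) := by
            apply div_le_div_of_nonneg_left (by positivity) (by positivity)
            linarith
    · calc (‖F z‖ / ‖HH z‖) / (2 * ‖z‖) ≤ (C * (Real.log t ^ k / t ^ j)) / (2 * ‖z‖) := by gcongr
        _ ≤ (C * (Real.log t ^ k / t ^ j)) / t := by
            apply div_le_div_of_nonneg_left (by positivity) ht0
            linarith
        _ = 1 * C * (Real.log t ^ k / t ^ (j + 1)) := by
            rw [pow_succ]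
            field_simp
        _ ≤ 4 * C * (Real.log t ^ k / t ^ (j + 1)) := by
            have : (1 : ℝ) ≤ 4 := by norm_num
            gcongr

lemma HH_an' (h1 : S_HA) {z : ℂ} (hz : 0 < z.im) : AnalyticAt ℂ (logDeriv HH) z :=
  (h1.1 z hz).1.deriv.div (h1.1 z hz).1 (h1.1 z hz).2

/-- the derivative -/
lemma cl_deriv (h1 : S_HA) (h2 : S_HB) {G : ℂ → ℂ} (hG : Cl G) : Cl (deriv G) := by
  obtain ⟨K1, T1, hK1, hT1, hA⟩ := h1.2
  obtain ⟨K2, T2, hK2, hT2, -, hB2⟩ := h2
  refine ⟨?_, ?_, ?_, ?_⟩
  · intro z hz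
    exact (hG.an z hz).deriv
  · intro a B ha hB
    obtain ⟨A, T0, hAp, hT0, h⟩ := hG.grow ((a - 1) / 2) ((B + 40) / 2) (by linarith) (by linarith)
    obtain ⟨r, hr⟩ : ∃ r : ℝ, r = min (min ((a + 1) / 2) ((40 - B) / 2)) 1 := ⟨_, rfl⟩
    have hr0 : 0 < r := by
      rw [hr]
      exact lt_min (lt_min (by linarith) (by linarith)) one_pos
    have hr1 : r ≤ 1 := by rw [hr]; exact min_le_right _ _
    have hr2 : r ≤ (a + 1) / 2 := by rw [hr]; exact (min_le_left _ _).trans (min_le_left _ _)
    have hr3 : r ≤ (40 - B) / 2 := by rw [hr]; exact (min_le_left _ _).trans (min_le_right _ _)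
    have hlr : 0 ≤ Real.log (1 / r) := Real.log_nonneg (by rw [le_div_iff₀ hr0]; linarith)
    refine ⟨2 * A + K2 + Real.log (1 / r), max T0 T2 + 1, by linarith,
      by linarith [le_max_left T0 T2], fun z hz1 hz2 hz3 => ?_⟩
    have hzT0 : T0 + 1 ≤ z.im := by linarith [le_max_left T0 T2]
    have hzT2 : T2 + 1 ≤ z.im := by linarith [le_max_right T0 T2]
    have hz3' : 3 ≤ z.im := by linarith
    have hL := one_le_log hz3'
    have hzp : 0 < z.im := by linarith
    have hb : ∀ w : ℂ, ‖w - z‖ ≤ r → ‖G w‖ ≤ Real.exp ((2 * A + K2) * Real.log z.im) * ‖HH z‖ := by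
      intro w hw
      obtain ⟨n1, n2, n3, n4⟩ := near hw
      have e1 := h w (by linarith) (by linarith) (by linarith)
      have e2 := hB2 z w (by linarith) (by linarith) (by linarith) (by linarith) (by linarith)
        (by linarith)
      have e3 : Real.log w.im ≤ 2 * Real.log z.im := by
        have : 2 * Real.log z.im = Real.log (z.im ^ 2) := by rw [Real.log_pow]; norm_num
        rw [this]
        apply Real.log_le_log (by linarith)
        nlinarith
      calc ‖G w‖ ≤ Real.exp (A * Real.log w.im) * ‖HH w‖ := e1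
        _ ≤ Real.exp (A * (2 * Real.log z.im)) * (Real.exp (K2 * Real.log z.im) * ‖HH z‖) := by
            gcongr
        _ = _ := by
            rw [← mul_assoc, ← Real.exp_add]
            congr 2
            ring
    have hd : DiffContOnCl ℂ G (ball z r) := by
      apply DifferentiableOn.diffContOnCl
      rw [closure_ball _ hr0.ne']
      intro w hw
      rw [mem_closedBall, dist_eq_norm] at hw
      obtain ⟨n1, n2, n3, n4⟩ := near hw
      exact (hG.an w (by linarith)).differentiableAt.differentiableWithinAt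
    have h6 := Complex.norm_deriv_le_of_forall_mem_sphere_norm_le (f := G) (c := z) (R := r)
      (C := Real.exp ((2 * A + K2) * Real.log z.im) * ‖HH z‖) hr0 hd (fun w hw => hb w (by
        rw [mem_sphere, dist_eq_norm] at hw
        exact hw.le))
    refine h6.trans ?_
    have e4 : 1 / r ≤ Real.exp (Real.log (1 / r) * Real.log z.im) := by
      calc 1 / r = Real.exp (Real.log (1 / r)) := (Real.exp_log (by positivity)).symm
        _ ≤ _ := by
          apply Real.exp_le_exp.2
          nlinarith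
    calc Real.exp ((2 * A + K2) * Real.log z.im) * ‖HH z‖ / r =
          Real.exp ((2 * A + K2) * Real.log z.im) * (1 / r) * ‖HH z‖ := by ring
      _ ≤ Real.exp ((2 * A + K2) * Real.log z.im) * Real.exp (Real.log (1 / r) * Real.log z.im) *
          ‖HH z‖ := by gcongr
      _ = _ := by
          rw [← Real.exp_add]
          congr 2
          ring
  · intro a B ha hB
    obtain ⟨C, T0, hC, hT0, h⟩ := hG.right ((a + 1 / 2) / 2) ((B + 40) / 2) (by linarith)
      (by linarith)
    obtain ⟨r, hr⟩ : ∃ r : ℝ, r = min (min ((a - 1 / 2) / 2) ((40 - B) / 2)) 1 := ⟨_, rfl⟩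
    have hr0 : 0 < r := by
      rw [hr]
      exact lt_min (lt_min (by linarith) (by linarith)) one_pos
    have hr1 : r ≤ 1 := by rw [hr]; exact min_le_right _ _
    have hr2 : r ≤ (a - 1 / 2) / 2 := by rw [hr]; exact (min_le_left _ _).trans (min_le_left _ _)
    have hr3 : r ≤ (40 - B) / 2 := by rw [hr]; exact (min_le_left _ _).trans (min_le_right _ _)
    obtain ⟨D, hD⟩ : ∃ D : ℝ, D = C + (C / r + K1) := ⟨_, rfl⟩
    refine ⟨D, max (max T0 T1 + 1) (Real.exp (2 * (C + K1 + 1))), ?_, ?_, fun z hz1 hz2 hz3 => ?_⟩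
    · rw [hD]; positivity
    · have := le_max_left (max T0 T1 + 1) (Real.exp (2 * (C + K1 + 1)))
      linarith [le_max_left T0 T1]
    have hz4 : max T0 T1 + 1 ≤ z.im := (le_max_left _ _).trans hz3
    have hzT0 : T0 + 1 ≤ z.im := by linarith [le_max_left T0 T1]
    have hzT1 : T1 + 1 ≤ z.im := by linarith [le_max_right T0 T1]
    have hzE : Real.exp (2 * (C + K1 + 1)) ≤ z.im := (le_max_right _ _).trans hz3
    have hzp : 0 < z.im := by linarith
    have hlog : 2 * (C + K1 + 1) ≤ Real.log z.im := by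
      rwa [Real.le_log_iff_exp_le hzp]
    -- analyticity of the logarithmic derivative of `G`
    have hqa : ∀ w : ℂ, ‖w - z‖ ≤ r → AnalyticAt ℂ (logDeriv G) w ∧
        ‖logDeriv G w - logDeriv HH w‖ ≤ C ∧ G w ≠ 0 ∧ 0 < w.im := by
      intro w hw
      obtain ⟨n1, n2, n3, n4⟩ := near hw
      have hwp : 0 < w.im := by linarith
      obtain ⟨g1, g2⟩ := h w (by linarith) (by linarith) (by linarith)
      exact ⟨(hG.an w hwp).deriv.div (hG.an w hwp) g1, g2, g1, hwp⟩
    have hdd : ∀ w : ℂ, ‖w - z‖ ≤ r →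
        DifferentiableAt ℂ (fun w => logDeriv G w - logDeriv HH w) w := by
      intro w hw
      obtain ⟨g1, g2, g3, g4⟩ := hqa w hw
      exact g1.differentiableAt.sub (HH_an' h1 g4).differentiableAt
    have h6 := Complex.norm_deriv_le_of_forall_mem_sphere_norm_le
      (f := fun w => logDeriv G w - logDeriv HH w) (c := z) (R := r) (C := C) hr0 (by
        apply DifferentiableOn.diffContOnCl
        rw [closure_ball _ hr0.ne']
        intro w hw
        rw [mem_closedBall, dist_eq_norm] at hw
        exact (hdd w hw).differentiableWithinAt) (fun w hw => by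
        rw [mem_sphere, dist_eq_norm] at hw
        exact (hqa w hw.le).2.1)
    obtain ⟨g1, g2, g3, -⟩ := hqa z (by rw [sub_self, norm_zero]; exact hr0.le)
    rw [deriv_fun_sub g1.differentiableAt (HH_an' h1 hzp).differentiableAt] at h6
    obtain ⟨k1, k2, k3⟩ := hA z (by linarith) (by linarith) (by linarith)
    have h7 : ‖deriv (logDeriv G) z‖ ≤ C / r + K1 := by
      have : deriv (logDeriv G) z = (deriv (logDeriv G) z - deriv (logDeriv HH) z) +
        deriv (logDeriv HH) z := by ring
      rw [this]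
      exact (norm_add_le _ _).trans (add_le_add h6 k3)
    have h8 : 1 ≤ ‖logDeriv G z‖ := by
      have e1 : ‖(Om z.im : ℂ)‖ = Om z.im := by
        rw [Complex.norm_real, Real.norm_eq_abs, abs_of_nonneg]
        unfold Pool.Agent.H24R2.JP.Om
        linarith
      have e2 : ‖(Om z.im : ℂ)‖ ≤ ‖logDeriv G z‖ + ‖logDeriv G z - (Om z.im : ℂ)‖ := by
        have : (Om z.im : ℂ) = logDeriv G z - (logDeriv G z - (Om z.im : ℂ)) := by ring
        calc ‖(Om z.im : ℂ)‖ = ‖logDeriv G z - (logDeriv G z - (Om z.im : ℂ))‖ := by rw [← this]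
          _ ≤ _ := norm_sub_le _ _
      have e3 : ‖logDeriv G z - (Om z.im : ℂ)‖ ≤ C + K1 := by
        have : logDeriv G z - (Om z.im : ℂ) = (logDeriv G z - logDeriv HH z) +
          (logDeriv HH z - (Om z.im : ℂ)) := by ring
        rw [this]
        exact (norm_add_le _ _).trans (add_le_add g2 k1)
      have e4 : Om z.im = Real.log z.im / 2 := rfl
      rw [e1] at e2
      linarith
    have hq0 : logDeriv G z ≠ 0 := by
      rw [← norm_pos_iff]; linarith
    have hev : deriv G =ᶠ[𝓝 z] fun w => G w * logDeriv G w := by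
      have hc : ∀ᶠ w in 𝓝 z, G w ≠ 0 :=
        (hG.an z hzp).continuousAt.eventually_ne g3
      filter_upwards [hc] with w hw
      rw [logDeriv_apply, mul_div_cancel₀ _ hw]
    refine ⟨?_, ?_⟩
    · rw [hev.eq_of_nhds]
      exact mul_ne_zero g3 hq0
    · have e1 : logDeriv (deriv G) z = logDeriv G z + logDeriv (logDeriv G) z := by
        have e2 : logDeriv (deriv G) z = logDeriv (fun w => G w * logDeriv G w) z := by
          rw [logDeriv_apply, logDeriv_apply, hev.deriv_eq, hev.eq_of_nhds]
        rw [e2]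
        exact logDeriv_mul z g3 hq0 (hG.an z hzp).differentiableAt g1.differentiableAt
      rw [e1]
      have e3 : logDeriv G z + logDeriv (logDeriv G) z - logDeriv HH z =
        (logDeriv G z - logDeriv HH z) + logDeriv (logDeriv G) z := by ring
      rw [e3, hD]
      refine (norm_add_le _ _).trans (add_le_add g2 ?_)
      rw [logDeriv_apply, norm_div, div_le_iff₀ (by linarith)]
      have : 0 ≤ C / r + K1 := by positivity
      nlinarith
  · obtain ⟨k, j, C, T0, hC, hT0, h⟩ := hG.mass
    obtain ⟨C', T0', hC', hT0', h'⟩ := hG.right 1 6 (by norm_num) (by norm_num)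
    refine ⟨k + 1, j, 4 * C, max (max T0 T0') (max T1 (Real.exp (4 * (C' + K1)))), by linarith, ?_,
      fun t ht => ?_⟩
    · exact hT0.trans ((le_max_left _ _).trans (le_max_left _ _))
    have ht0 : T0 ≤ t := ((le_max_left _ _).trans (le_max_left _ _)).trans ht
    have ht0' : T0' ≤ t := ((le_max_right _ _).trans (le_max_left _ _)).trans ht
    have ht1 : T1 ≤ t := ((le_max_left _ _).trans (le_max_right _ _)).trans ht
    have htE : Real.exp (4 * (C' + K1)) ≤ t := ((le_max_right _ _).trans (le_max_right _ _)).trans ht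
    have htp : 0 < t := by linarith
    have hlog : 4 * (C' + K1) ≤ Real.log t := by rwa [Real.le_log_iff_exp_le htp]
    obtain ⟨m1, m2⟩ := h t ht0
    set z : ℂ := 3 + I * t with hz
    have hzre : z.re = 3 := by rw [hz]; simp
    have hzim : z.im = t := by rw [hz]; simp
    obtain ⟨g3, g2⟩ := h' z (by linarith) (by linarith) (by linarith)
    obtain ⟨k1, k2, k3⟩ := hA z (by linarith) (by linarith) (by linarith)
    rw [hzim] at k1
    have hL : 0 < Real.log t := by linarith [one_le_log (hT0.trans ht0)]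
    have e1 : ‖(Om t : ℂ)‖ = Real.log t / 2 := by
      rw [Complex.norm_real, Real.norm_eq_abs, abs_of_nonneg]
      · rfl
      · unfold Pool.Agent.H24R2.JP.Om
        linarith
    have e3 : ‖logDeriv G z - (Om t : ℂ)‖ ≤ C' + K1 := by
      have : logDeriv G z - (Om t : ℂ) = (logDeriv G z - logDeriv HH z) +
        (logDeriv HH z - (Om t : ℂ)) := by ring
      rw [this]
      exact (norm_add_le _ _).trans (add_le_add g2 k1)
    have e4 : Real.log t / 4 ≤ ‖logDeriv G z‖ := by
      have : (Om t : ℂ) = logDeriv G z - (logDeriv G z - (Om t : ℂ)) := by ring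
      have e2 : ‖(Om t : ℂ)‖ ≤ ‖logDeriv G z‖ + ‖logDeriv G z - (Om t : ℂ)‖ := by
        calc ‖(Om t : ℂ)‖ = ‖logDeriv G z - (logDeriv G z - (Om t : ℂ))‖ := by rw [← this]
          _ ≤ _ := norm_sub_le _ _
      rw [e1] at e2
      linarith
    have e5 : ‖logDeriv G z‖ ≤ Real.log t := by
      have : logDeriv G z = (Om t : ℂ) + (logDeriv G z - (Om t : ℂ)) := by ring
      have e2 : ‖logDeriv G z‖ ≤ ‖(Om t : ℂ)‖ + ‖logDeriv G z - (Om t : ℂ)‖ := by
        calc ‖logDeriv G z‖ = ‖(Om t : ℂ) + (logDeriv G z - (Om t : ℂ))‖ := by rw [← this]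
          _ ≤ _ := norm_add_le _ _
      rw [e1] at e2
      linarith
    have e6 : ‖deriv G z‖ / ‖HH z‖ = ‖G z‖ / ‖HH z‖ * ‖logDeriv G z‖ := by
      rw [logDeriv_apply, norm_div]
      have : ‖G z‖ ≠ 0 := norm_ne_zero_iff.2 g3
      field_simp
    rw [e6]
    have hm : 0 ≤ Real.log t ^ k / t ^ j := by positivity
    have hr0 : 0 ≤ ‖G z‖ / ‖HH z‖ := by positivity
    constructor
    · calc Real.log t ^ (k + 1) / t ^ j / (4 * C) =
            (Real.log t ^ k / t ^ j / C) * (Real.log t / 4) := by
            rw [pow_succ]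
            field_simp
        _ ≤ (‖G z‖ / ‖HH z‖) * ‖logDeriv G z‖ := by gcongr
    · calc (‖G z‖ / ‖HH z‖) * ‖logDeriv G z‖ ≤ (C * (Real.log t ^ k / t ^ j)) * Real.log t := by
            gcongr
        _ = 1 * C * (Real.log t ^ (k + 1) / t ^ j) := by
            rw [pow_succ]
            ring
        _ ≤ 4 * C * (Real.log t ^ (k + 1) / t ^ j) := by
            have : (1 : ℝ) ≤ 4 := by norm_num
            gcongr

theorem t_CD (h1 : S_HA) (h2 : S_HB) : S_CD := by
  intro b G hG
  cases b
  · have e : Op false G = deriv G := by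
      funext z
      simp [Op]
    rw [e]
    exact cl_deriv h1 h2 hG
  · have e : Op true G = fun z => deriv G z / (2 * z) := by
      funext z
      simp [Op]
    rw [e]
    exact cl_div (cl_deriv h1 h2 hG)

end Pool.Agent.Q144.DJ
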