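import Pool.Agent.Q260.DJ.Stm
import Pool.Agent.H24R2.JP.Stir
import Pool.Agent.H370R2.Digamma

set_option autoImplicit false

/-! Job HA of project DJ: Stirling for `HH`. -/

namespace Pool.Agent.Q144.DJ

open Complex Filter Topology Metric Set
open Pool.Agent.H24R2.JP (HH XX Om)
open Pool.Agent.H24R2.JP.StirAux

lemma er_min (n : ℕ) {s : ℂ} (hs : 0 < s.re) (hy : 0 < s.im) :
    ‖H370.DG.er n s‖ ≤ min (1 / ((n : ℝ) + 1) ^ 2) (1 / s.im ^ 2) := by
  refine le_min (H370.DG.norm_er_le n hs) ?_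
  have hn : (0 : ℝ) ≤ n := Nat.cast_nonneg n
  have hre : (n : ℝ) + 2 ≤ (s + ((n : ℂ) + 2)).re := by
    simp only [add_re, natCast_re, re_ofNat]
    linarith
  have h1 := H370.DG.log_step (z := s + ((n : ℂ) + 2)) (by linarith)
  have h2 : s + ((n : ℂ) + 2) + 1 = s + (n + 3) := by ring
  rw [h2] at h1
  refine h1.trans ?_
  apply one_div_le_one_div_of_le (by positivity)
  have h3 := abs_im_le_norm (s + ((n : ℂ) + 2))
  have h4 : (s + ((n : ℂ) + 2)).im = s.im := by simp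
  rw [h4, abs_of_pos hy] at h3
  exact pow_le_pow_left₀ hy.le h3 2

lemma sum_min : ∃ Y : ℝ, ∀ y : ℝ, Y ≤ y →
    ∑' n : ℕ, min (1 / ((n : ℝ) + 1) ^ 2) (1 / y ^ 2) ≤ 1 / 20 := by
  have h : Tendsto (fun y : ℝ => ∑' n : ℕ, min (1 / ((n : ℝ) + 1) ^ 2) (1 / y ^ 2)) atTop
      (𝓝 (∑' _ : ℕ, (0 : ℝ))) := by
    refine tendsto_tsum_of_dominated_convergence (bound := fun n : ℕ => 1 / ((n : ℝ) + 1) ^ 2)
      H370.DG.summable_inv_sq (fun n => ?_) (Eventually.of_forall fun y n => ?_)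
    · have h1 : Tendsto (fun y : ℝ => 1 / y ^ 2) atTop (𝓝 0) := by
        simpa using tendsto_pow_neg_atTop (𝕜 := ℝ) (n := 2) (by norm_num)
      have h2 : Tendsto (fun y : ℝ => min (1 / ((n : ℝ) + 1) ^ 2) (1 / y ^ 2)) atTop
          (𝓝 (min (1 / ((n : ℝ) + 1) ^ 2) 0)) := tendsto_const_nhds.min h1
      rwa [min_eq_right (by positivity)] at h2
    · rw [Real.norm_eq_abs, abs_of_nonneg (le_min (by positivity) (by positivity))]
      exact min_le_left _ _
  rw [tsum_zero] at h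
  have h3 : ∀ᶠ y : ℝ in atTop, ∑' n : ℕ, min (1 / ((n : ℝ) + 1) ^ 2) (1 / y ^ 2) ≤ 1 / 20 := by
    filter_upwards [h.eventually (gt_mem_nhds (show (0 : ℝ) < 1 / 20 by norm_num))] with y hy
    exact hy.le
  exact eventually_atTop.1 h3

lemma sin_lt : Real.sin (7 / 5) < 1 := by
  have h := Real.sin_lt_sin_of_lt_of_le_pi_div_two (x := 7 / 5) (y := Real.pi / 2)
    (by have := Real.pi_gt_three; linarith) le_rfl (by have := Real.pi_gt_d2; linarith)
  rwa [Real.sin_pi_div_two] at h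

lemma arg_big : ∃ Y : ℝ, 0 < Y ∧ ∀ w : ℂ, 0 ≤ w.re → w.re ≤ 50 → Y ≤ w.im → 7 / 5 ≤ arg w := by
  set u := Real.sin (7 / 5) with hu
  have hu1 : u < 1 := sin_lt
  have hu0 : 0 < u := by
    apply Real.sin_pos_of_pos_of_lt_pi (by norm_num)
    have := Real.pi_gt_three
    linarith
  have h3 : 0 < 1 - u := by linarith
  refine ⟨50 * u / (1 - u), by positivity, ?_⟩
  intro w h0 h1 h2
  have hY : 0 < w.im := lt_of_lt_of_le (by positivity) h2
  rw [Complex.arg_of_re_nonneg h0, Real.le_arcsin_iff_sin_le' ⟨by have := Real.pi_gt_three; linarith,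
    by have := Real.pi_gt_d2; linarith⟩]
  have hn : 0 < ‖w‖ := by
    have := abs_im_le_norm w
    rw [abs_of_pos hY] at this
    linarith
  rw [le_div_iff₀ hn]
  have h4 : ‖w‖ ≤ 50 + w.im := by
    refine (norm_le_abs_re_add_abs_im w).trans ?_
    rw [abs_of_nonneg h0, abs_of_pos hY]
    linarith
  rw [div_le_iff₀ h3] at h2
  calc u * ‖w‖ ≤ u * (50 + w.im) := by gcongr
    _ ≤ w.im := by linarith

lemma im_inv {w : ℂ} (hw : 0 < w.im) : (1 / w).im ≤ 0 := by
  rw [one_div, Complex.inv_im]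
  exact div_nonpos_of_nonpos_of_nonneg (by linarith) (normSq_nonneg _)

lemma im_psi : ∃ Y : ℝ, 0 < Y ∧ ∀ w : ℂ, 0 < w.re → w.re ≤ 40 → Y ≤ w.im →
    6 / 5 ≤ (logDeriv Gamma w).im := by
  obtain ⟨Y1, h1⟩ := sum_min
  obtain ⟨Y2, hY2, h2⟩ := arg_big
  refine ⟨max Y1 Y2, lt_max_of_lt_right hY2, ?_⟩
  intro w hw hw2 hY
  have hw0 : 0 < w.im := lt_of_lt_of_le (lt_max_of_lt_right hY2) hY
  have ha := h2 (w + 2) (by simp; linarith) (by simp; linarith) (by
    simp only [add_im, im_ofNat, add_zero]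
    exact (le_max_right _ _).trans hY)
  have hs := h1 w.im ((le_max_left _ _).trans hY)
  have hS : Summable (fun n : ℕ => min (1 / ((n : ℝ) + 1) ^ 2) (1 / w.im ^ 2)) :=
    Summable.of_nonneg_of_le (fun n => le_min (by positivity) (by positivity))
      (fun n => min_le_left _ _) H370.DG.summable_inv_sq
  have he : ‖∑' n, H370.DG.er n w‖ ≤ 1 / 20 :=
    (tsum_of_norm_bounded hS.hasSum fun n => er_min n hw hw0).trans hs
  have he2 : -(1 / 20) ≤ (∑' n, H370.DG.er n w).im := by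
    have := abs_im_le_norm (∑' n, H370.DG.er n w)
    rw [abs_le] at this
    linarith [this.1]
  rw [H370.DG.logDeriv_Gamma' hw]
  have e1 := im_inv hw0
  have e2 := im_inv (w := w + 1) (by simpa using hw0)
  rw [add_im, sub_im, sub_im, Complex.log_im]
  linarith

lemma psi_rec {w : ℂ} (hw : 0 < w.im) : logDeriv Gamma w = logDeriv Gamma (w + 1) - 1 / w := by
  have hne : ∀ m : ℕ, w ≠ -m := by
    intro m h
    have := congrArg Complex.im h
    simp at this
    linarith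
  have e := digamma_apply_add_one w hne
  rw [digamma_def] at e
  rw [e, one_div]
  ring

theorem t_HA : Pool.Agent.Q260.DJ.S_HA := by
  refine ⟨fun z hz => ⟨?_, HH_ne hz⟩, ?_⟩
  · have h1 : DifferentiableOn ℂ HH {z : ℂ | 0 < z.im} :=
      fun w hw => (HH_diff hw).differentiableWithinAt
    exact h1.analyticAt (upper_open.mem_nhds hz)
  obtain ⟨K, hK, h⟩ := bound1
  obtain ⟨Y, hY, hψ⟩ := im_psi
  refine ⟨K, max 800 (2 * Y), hK, (by norm_num : (3 : ℝ) ≤ 800).trans (le_max_left _ _), ?_⟩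
  intro z h1 h2 hT
  have hT1 : 800 ≤ z.im := (le_max_left _ _).trans hT
  have hT2 : 2 * Y ≤ z.im := (le_max_right _ _).trans hT
  have hz : 0 < z.im := by linarith
  -- distance to the point `I * z.im`
  have hd : ‖z - I * z.im‖ ≤ 40 := by
    have e : z - I * z.im = (z.re : ℂ) := by
      apply Complex.ext <;> simp
    rw [e, Complex.norm_real, Real.norm_eq_abs, abs_le]
    constructor <;> linarith
  refine ⟨(h z.im z (by linarith) (by linarith)).2, ?_, ?_⟩
  · rw [ld_eq hz]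
    have hn : 800 ≤ ‖z‖ := by
      have := Complex.abs_im_le_norm z
      rw [abs_of_pos hz] at this
      linarith
    have h3 : ‖8 * z / (4 * z ^ 2 - 1)‖ ≤ 1 / 20 := by
      rw [norm_div, div_le_iff₀ (norm_pos_iff.2 (quad_ne hz))]
      have e1 : ‖8 * z‖ = 8 * ‖z‖ := by simp
      have e2 : ‖(4 * z ^ 2 : ℂ)‖ = 4 * ‖z‖ ^ 2 := by simp
      have e3 : ‖(4 * z ^ 2 : ℂ)‖ - ‖(1 : ℂ)‖ ≤ ‖(4 * z ^ 2 - 1 : ℂ)‖ := norm_sub_norm_le _ _
      rw [e2, norm_one] at e3
      rw [e1]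
      nlinarith
    have h3' : -(1 / 20) ≤ (8 * z / (4 * z ^ 2 - 1)).im := by
      have := abs_im_le_norm (8 * z / (4 * z ^ 2 - 1))
      rw [abs_le] at this
      linarith [this.1]
    have hw1 : ((1 / 2 + z) / 2).im = z.im / 2 := by
      have : ((1 / 2 + z) / 2) = (1 / 4 : ℂ) + ((1 / 2 : ℝ) : ℂ) * z := by push_cast; ring
      rw [this, add_im, im_ofReal_mul]
      simp
      ring
    have hw2 : ((1 / 2 + z) / 2).re = 1 / 4 + z.re / 2 := by
      have : ((1 / 2 + z) / 2) = (1 / 4 : ℂ) + ((1 / 2 : ℝ) : ℂ) * z := by push_cast; ring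
      rw [this, add_re, re_ofReal_mul]
      simp
      ring
    have h4 : 6 / 5 ≤ (logDeriv Gamma ((1 / 2 + z) / 2)).im := by
      have hwp : 0 < ((1 / 2 + z) / 2).im := by rw [hw1]; linarith
      have h5 := hψ ((1 / 2 + z) / 2 + 1) (by rw [add_re, hw2, one_re]; linarith)
        (by rw [add_re, hw2, one_re]; linarith) (by rw [add_im, hw1, one_im]; linarith)
      rw [psi_rec hwp, sub_im]
      linarith [im_inv hwp]
    unfold ld
    have e5 : (-((Real.log Real.pi / 2 : ℝ) : ℂ) + logDeriv Complex.Gamma ((1 / 2 + z) / 2) / 2).im =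
        (logDeriv Complex.Gamma ((1 / 2 + z) / 2)).im / 2 := by
      have : logDeriv Complex.Gamma ((1 / 2 + z) / 2) / 2 =
        ((1 / 2 : ℝ) : ℂ) * logDeriv Complex.Gamma ((1 / 2 + z) / 2) := by push_cast; ring
      rw [this, add_im, neg_im, ofReal_im, im_ofReal_mul]
      ring
    rw [add_im, e5]
    linarith
  · have hu : ∀ w : ℂ, ‖w - z‖ ≤ 1 → 0 < w.im ∧ ‖logDeriv HH w - (Om z.im : ℂ)‖ ≤ K := by
      intro w hw
      refine h z.im w (by linarith) ?_
      calc ‖w - I * z.im‖ = ‖(w - z) + (z - I * z.im)‖ := by congr 1; ring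
        _ ≤ ‖w - z‖ + ‖z - I * z.im‖ := norm_add_le _ _
        _ ≤ z.im / 4 := by linarith
    have e0 : deriv (logDeriv HH) z = deriv (fun w => logDeriv HH w - (Om z.im : ℂ)) z := by
      rw [deriv_sub_const]
    rw [e0]
    have h6 := Complex.norm_deriv_le_of_forall_mem_sphere_norm_le
      (f := fun w => logDeriv HH w - (Om z.im : ℂ)) (c := z) (R := 1) (C := K) one_pos ?_ ?_
    · rwa [div_one] at h6
    · apply DifferentiableOn.diffContOnCl
      rw [closure_ball _ one_ne_zero]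
      intro w hw
      rw [mem_closedBall, dist_eq_norm] at hw
      exact ((ld_diff (hu w hw).1).sub_const _).differentiableWithinAt
    · intro w hw
      rw [mem_sphere, dist_eq_norm] at hw
      exact (hu w hw.le).2

end Pool.Agent.Q144.DJ
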