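import Pool.Agent.Q260.DJ.Stm

set_option autoImplicit false

/-! Job TC of project DJ: abstract three circles. -/

namespace Pool.Agent.Q144.DJ

open Complex Filter Topology Metric Set

/-- logarithm of a zero free function on a disc, with its derivative -/
lemma exists_log' {g : ℂ → ℂ} {c : ℂ} {r : ℝ} (hr : 0 < r)
    (hg : DifferentiableOn ℂ g (ball c r)) (hg0 : ∀ z ∈ ball c r, g z ≠ 0) :
    ∃ h : ℂ → ℂ, (∀ w ∈ ball c r, HasDerivAt h (logDeriv g w) w) ∧ h c = 0 ∧
      ∀ w ∈ ball c r, g w = g c * cexp (h w) := by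
  have hcr : c ∈ ball c r := mem_ball_self hr
  have hga : ∀ w ∈ ball c r, AnalyticAt ℂ g w := fun w hw =>
    hg.analyticAt (isOpen_ball.mem_nhds hw)
  have hd : DifferentiableOn ℂ (logDeriv g) (ball c r) := by
    intro w hw
    have h1 : AnalyticAt ℂ (logDeriv g) w := (hga w hw).deriv.div (hga w hw) (hg0 w hw)
    exact h1.differentiableAt.differentiableWithinAt
  obtain ⟨h, hhc, hh⟩ := hd.isExactOn_ball.with_val_at c 0
  refine ⟨h, hh, hhc, ?_⟩
  have hconst : ∀ w ∈ ball c r, g w * cexp (-h w) = g c := by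
    intro w hw
    have hderiv : ∀ x ∈ ball c r, HasDerivAt (fun y => g y * cexp (-h y)) 0 x := by
      intro x hx
      have e1 : HasDerivAt g (deriv g x) x := (hga x hx).differentiableAt.hasDerivAt
      have e2 : HasDerivAt (fun y => cexp (-h y)) (cexp (-h x) * (-(logDeriv g x))) x :=
        ((hh x hx).neg).cexp
      have e3 : HasDerivAt (fun y => g y * cexp (-h y))
          (deriv g x * cexp (-h x) + g x * (cexp (-h x) * (-(logDeriv g x)))) x := e1.mul e2
      have e4 : deriv g x * cexp (-h x) + g x * (cexp (-h x) * (-(logDeriv g x))) = 0 := by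
        have := hg0 x hx
        rw [logDeriv_apply]
        field_simp
        ring
      rwa [e4] at e3
    have hcv : Convex ℝ (ball c r) := convex_ball c r
    have := hcv.is_const_of_fderivWithin_eq_zero (𝕜 := ℂ) (f := fun y => g y * cexp (-h y))
      (fun x hx => (hderiv x hx).differentiableAt.differentiableWithinAt)
      (fun x hx => by
        have h5 := (hderiv x hx).hasFDerivAt.hasFDerivWithinAt (s := ball c r)
        rw [h5.fderivWithin (isOpen_ball.uniqueDiffWithinAt hx)]
        ext; simp) hw hcr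
    simp only [hhc, neg_zero, Complex.exp_zero, mul_one] at this
    exact this
  intro w hw
  rw [← hconst w hw, mul_assoc, ← Complex.exp_add, neg_add_cancel, Complex.exp_zero, mul_one]

/-- the theorem of the three circles -/
theorem three_circles' {F : ℂ → ℂ} {c : ℂ} {r₁ r₃ M₁ M₃ : ℝ} (h1 : 0 < r₁) (h13 : r₁ < r₃)
    (hF : ∀ z ∈ closedBall c r₃, DifferentiableAt ℂ F z)
    (hM₁ : ∀ z ∈ sphere c r₁, ‖F z‖ ≤ M₁) (hM₃ : ∀ z ∈ sphere c r₃, ‖F z‖ ≤ M₃)
    {z : ℂ} (hz1 : r₁ ≤ ‖z - c‖) (hz3 : ‖z - c‖ ≤ r₃) :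
    ‖F z‖ ≤ M₁ ^ (1 - (Real.log ‖z - c‖ - Real.log r₁) / (Real.log r₃ - Real.log r₁)) *
      M₃ ^ ((Real.log ‖z - c‖ - Real.log r₁) / (Real.log r₃ - Real.log r₁)) := by
  have h3 : 0 < r₃ := h1.trans h13
  have hul : Real.log r₁ < Real.log r₃ := Real.log_lt_log h1 h13
  have hzc : 0 < ‖z - c‖ := h1.trans_le hz1
  have hzne : z - c ≠ 0 := norm_pos_iff.1 hzc
  have hnorm : ∀ w : ℂ, ‖c + exp w - c‖ = Real.exp w.re := fun w => by
    rw [add_sub_cancel_left, Complex.norm_exp]
  have hin : ∀ w : ℂ, w.re ≤ Real.log r₃ → c + exp w ∈ closedBall c r₃ := fun w hw => by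
    rw [mem_closedBall, dist_eq_norm, hnorm]
    calc Real.exp w.re ≤ Real.exp (Real.log r₃) := Real.exp_le_exp.2 hw
      _ = r₃ := Real.exp_log h3
  obtain ⟨f, hf⟩ : ∃ f : ℂ → ℂ, f = fun w => F (c + exp w) := ⟨_, rfl⟩
  have hfd : ∀ w : ℂ, w.re ≤ Real.log r₃ → DifferentiableAt ℂ f w := fun w hw => by
    rw [hf]
    exact (hF _ (hin w hw)).comp w (by fun_prop)
  have hcl : closure (HadamardThreeLines.verticalStrip (Real.log r₁) (Real.log r₃)) ⊆
      HadamardThreeLines.verticalClosedStrip (Real.log r₁) (Real.log r₃) := by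
    apply closure_minimal
    · intro w hw
      exact ⟨hw.1.le, hw.2.le⟩
    · exact isClosed_Icc.preimage Complex.continuous_re
  have hd : DiffContOnCl ℂ f (HadamardThreeLines.verticalStrip (Real.log r₁) (Real.log r₃)) := by
    apply DifferentiableOn.diffContOnCl
    intro w hw
    exact (hfd w (hcl hw).2).differentiableWithinAt
  have hB : BddAbove ((norm ∘ f) '' HadamardThreeLines.verticalClosedStrip (Real.log r₁)
      (Real.log r₃)) := by
    have hc : ContinuousOn F (closedBall c r₃) := fun y hy =>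
      (hF y hy).continuousAt.continuousWithinAt
    obtain ⟨B, hB⟩ := (isCompact_closedBall c r₃).exists_bound_of_continuousOn hc
    refine ⟨B, ?_⟩
    rintro _ ⟨w, hw, rfl⟩
    rw [Function.comp_apply, hf]
    exact hB _ (hin w hw.2)
  have key := HadamardThreeLines.norm_le_interp_of_mem_verticalClosedStrip' (f := f)
    (z := Complex.log (z - c)) (a := M₁) (b := M₃) hul (by
      constructor
      · rw [Complex.log_re]
        exact Real.log_le_log h1 hz1
      · rw [Complex.log_re]
        exact Real.log_le_log hzc hz3) hd hB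
    (fun w hw => by
      rw [hf]
      refine hM₁ _ ?_
      rw [mem_sphere, dist_eq_norm, hnorm, show w.re = Real.log r₁ from hw, Real.exp_log h1])
    (fun w hw => by
      rw [hf]
      refine hM₃ _ ?_
      rw [mem_sphere, dist_eq_norm, hnorm, show w.re = Real.log r₃ from hw, Real.exp_log h3])
  rw [hf] at key
  simp only [Complex.exp_log hzne, add_sub_cancel, Complex.log_re] at key
  exact key

/-- the exponent -/
lemma expo {ρ δ : ℝ} (h2 : 2 ≤ ρ) (h3 : ρ ≤ 3) (hδ : 0 < δ) (hδ2 : δ ≤ 1 / 2) :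
    0 < Real.log (ρ - δ / 4) ∧ Real.log (ρ - δ / 2) / Real.log (ρ - δ / 4) ≤ 1 - δ / 16 := by
  have hp : 1 < ρ - δ / 4 := by linarith
  have hl : 0 < Real.log (ρ - δ / 4) := Real.log_pos hp
  refine ⟨hl, ?_⟩
  have h0 : 0 < ρ - δ / 2 := by linarith
  have h4 : 0 < ρ - δ / 4 := by linarith
  have e1 : Real.log (ρ - δ / 2) - Real.log (ρ - δ / 4) ≤ -(δ / 12) := by
    rw [← Real.log_div h0.ne' h4.ne']
    have h5 := Real.log_le_sub_one_of_pos (div_pos h0 h4)
    refine h5.trans ?_
    rw [div_sub_one h4.ne', div_le_iff₀ h4]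
    nlinarith
  have e2 : Real.log (ρ - δ / 4) ≤ 4 / 3 := by
    have h6 : Real.log (ρ - δ / 4) ≤ Real.log 3 := Real.log_le_log h4 (by linarith)
    have h7 : Real.log 3 ≤ 4 / 3 := by
      have h8 : Real.log 3 = Real.log (3 / 2.7) + Real.log 2.7 := by
        rw [← Real.log_mul (by norm_num) (by norm_num)]; norm_num
      have h9 : Real.log (3 / 2.7) ≤ 3 / 2.7 - 1 := Real.log_le_sub_one_of_pos (by norm_num)
      have h10 : Real.log 2.7 ≤ 1 := by
        rw [Real.log_le_iff_le_exp (by norm_num)]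
        have := Real.exp_one_gt_d9
        linarith
      rw [h8]
      have h11 : (3 : ℝ) / 2.7 - 1 ≤ 1 / 3 := by norm_num
      linarith
    exact h6.trans h7
  rw [div_le_iff₀ hl]
  nlinarith

theorem t_TC : Pool.Agent.Q260.DJ.S_TC := by
  intro C0 hC0
  refine ⟨96 * C0, by linarith, ?_⟩
  intro g c ρ δ M h2 h3 hδ hδ2 hM hg hg0 hgM hgl w hw
  have hρ : 0 < ρ := by linarith
  have hM0 : 0 < M := by linarith
  have hC0' : 0 < C0 := by linarith
  obtain ⟨f, hf, hfc, hgf⟩ := exists_log' hρ hg hg0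
  have hfd : DifferentiableOn ℂ f (ball c ρ) := fun w hw => (hf w hw).differentiableAt.differentiableWithinAt
  have hgc : 0 < ‖g c‖ := norm_pos_iff.2 (hg0 c (mem_ball_self hρ))
  have hre : ∀ w ∈ ball c ρ, (f w).re ≤ M := by
    intro w hw
    have h4 := hgM w hw
    rw [hgf w hw, norm_mul, Complex.norm_exp, mul_comm] at h4
    exact Real.exp_le_exp.1 (le_of_mul_le_mul_right h4 hgc)
  -- Borel-Caratheodory
  have hbc : ∀ z ∈ closedBall c (ρ - δ / 4), ‖f z‖ ≤ 24 * M / δ := by
    intro z hz
    rw [mem_closedBall, dist_eq_norm] at hz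
    have hz' : z - c ∈ ball (0 : ℂ) ρ := by
      rw [mem_ball_zero_iff]; linarith
    have hmap : ∀ x : ℂ, x ∈ ball (0 : ℂ) ρ → c + x ∈ ball c ρ := by
      intro x hx
      rw [mem_ball_zero_iff] at hx
      rw [mem_ball, dist_eq_norm, add_sub_cancel_left]
      exact hx
    have hb := Complex.borelCaratheodory_zero (f := fun w => f (c + w)) (M := M) (R := ρ)
      (z := z - c) hM0
      (fun x hx => by
        have h1 := (hf (c + x) (hmap x hx)).differentiableAt
        have h2 : DifferentiableAt ℂ (fun y : ℂ => c + y) x := by fun_prop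
        exact (DifferentiableAt.comp (g := f) (f := fun y : ℂ => c + y) x h1 h2).differentiableWithinAt)
      (fun x hx => hre (c + x) (hmap x hx)) hρ hz' (by simp [hfc])
    have e : c + (z - c) = z := by ring
    simp only [e] at hb
    refine hb.trans ?_
    have h6 : 0 < δ / 4 := by linarith
    have h7 : δ / 4 ≤ ρ - ‖z - c‖ := by linarith
    have h8 : 0 < ρ - ‖z - c‖ := by linarith
    rw [div_le_div_iff₀ h8 hδ]
    have h9 : 2 * M * ‖z - c‖ * δ ≤ 2 * M * 3 * δ := by
      have : ‖z - c‖ ≤ 3 := by linarith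
      gcongr
    have h10 : 24 * M * (δ / 4) ≤ 24 * M * (ρ - ‖z - c‖) := by gcongr
    linarith
  -- near the centre
  have hin : ∀ z ∈ closedBall c 1, ‖f z‖ ≤ C0 := by
    intro z hz
    have h4 : ∀ x ∈ closedBall c (1 : ℝ), HasDerivWithinAt f (logDeriv g x) (closedBall c 1) x :=
      fun x hx => (hf x (closedBall_subset_ball (by linarith) hx)).hasDerivWithinAt
    have h5 := (convex_closedBall c (1 : ℝ)).norm_image_sub_le_of_norm_hasDerivWithin_le h4 hgl
      (mem_closedBall_self (by norm_num)) hz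
    rw [hfc, sub_zero] at h5
    rw [mem_closedBall, dist_eq_norm] at hz
    refine h5.trans ?_
    calc C0 * ‖z - c‖ ≤ C0 * 1 := by gcongr
      _ = C0 := mul_one _
  obtain ⟨hl, hexp⟩ := expo h2 h3 hδ hδ2
  have hMp : 1 ≤ M ^ (1 - δ / 16) := Real.one_le_rpow hM (by linarith)
  have hK1 : 1 ≤ 24 / δ := by
    rw [le_div_iff₀ hδ]; linarith
  -- the middle circle
  have hmid : ∀ z ∈ closedBall c (ρ - δ / 2), ‖f z‖ ≤ C0 * (24 / δ) * M ^ (1 - δ / 16) := by
    intro z hz
    rcases le_total ‖z - c‖ 1 with h | h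
    · have h4 : z ∈ closedBall c 1 := by rw [mem_closedBall, dist_eq_norm]; exact h
      refine (hin z h4).trans ?_
      calc C0 = C0 * 1 * 1 := by ring
        _ ≤ _ := by gcongr
    · rw [mem_closedBall, dist_eq_norm] at hz
      have h5 := three_circles' (F := f) (c := c) (r₁ := 1) (r₃ := ρ - δ / 4) (M₁ := C0)
        (M₃ := C0 * (24 / δ * M)) (by norm_num) (by linarith)
        (fun x hx => (hf x (closedBall_subset_ball (by linarith) hx)).differentiableAt)
        (fun x hx => hin x (sphere_subset_closedBall hx))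
        (fun x hx => by
          have h6 := hbc x (sphere_subset_closedBall hx)
          refine h6.trans ?_
          calc 24 * M / δ = 1 * (24 / δ * M) := by ring
            _ ≤ _ := by gcongr) h (by linarith)
      rw [Real.log_one, sub_zero, sub_zero] at h5
      set α := Real.log ‖z - c‖ / Real.log (ρ - δ / 4) with hα
      have hα0 : 0 ≤ α := div_nonneg (Real.log_nonneg h) hl.le
      have hα1 : α ≤ 1 - δ / 16 := by
        refine le_trans ?_ hexp
        rw [hα]
        gcongr
      have hKM : 0 ≤ 24 / δ * M := by positivity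
      refine h5.trans ?_
      rw [Real.mul_rpow hC0'.le hKM, ← mul_assoc, ← Real.rpow_add hC0', sub_add_cancel,
        Real.rpow_one, Real.mul_rpow (by positivity) hM0.le, ← mul_assoc]
      have h7 : (24 / δ) ^ α ≤ 24 / δ := by
        calc (24 / δ) ^ α ≤ (24 / δ) ^ (1 : ℝ) :=
              Real.rpow_le_rpow_of_exponent_le hK1 (by linarith)
          _ = _ := Real.rpow_one _
      have h8 : M ^ α ≤ M ^ (1 - δ / 16) := Real.rpow_le_rpow_of_exponent_le hM hα1
      gcongr
  have hMC : M ^ (1 - δ / 16) ≤ M ^ (1 - δ / (96 * C0)) := by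
    refine Real.rpow_le_rpow_of_exponent_le hM ?_
    have : δ / (96 * C0) ≤ δ / 16 := by
      apply div_le_div_of_nonneg_left hδ.le (by norm_num)
      linarith
    linarith
  have hwb : w ∈ ball c ρ := by
    rw [mem_ball, dist_eq_norm]; linarith
  constructor
  · have e1 : Real.log (‖g w‖ / ‖g c‖) = (f w).re := by
      rw [hgf w hwb, norm_mul, mul_div_cancel_left₀ _ hgc.ne', Complex.norm_exp, Real.log_exp]
    rw [e1]
    refine (Complex.abs_re_le_norm _).trans ((hmid w ?_).trans ?_)
    · rw [mem_closedBall, dist_eq_norm]; linarith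
    · have h9 : C0 * (24 / δ) ≤ 96 * C0 / δ ^ 2 := by
        rw [← mul_div_assoc, div_le_div_iff₀ hδ (by positivity)]
        nlinarith [mul_pos hC0' hδ]
      calc C0 * (24 / δ) * M ^ (1 - δ / 16) ≤ 96 * C0 / δ ^ 2 * M ^ (1 - δ / (96 * C0)) := by
            gcongr
        _ = _ := rfl
  · have hd : DiffContOnCl ℂ f (ball w (δ / 2)) := by
      apply DifferentiableOn.diffContOnCl
      rw [closure_ball _ (by linarith)]
      refine hfd.mono fun x hx => ?_
      rw [mem_closedBall, dist_eq_norm] at hx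
      rw [mem_ball, dist_eq_norm]
      have : ‖x - c‖ ≤ ‖x - w‖ + ‖w - c‖ := by
        calc ‖x - c‖ = ‖(x - w) + (w - c)‖ := by congr 1; ring
          _ ≤ _ := norm_add_le _ _
      linarith
    have h10 := Complex.norm_deriv_le_of_forall_mem_sphere_norm_le (f := f) (c := w) (R := δ / 2)
      (C := C0 * (24 / δ) * M ^ (1 - δ / 16)) (by linarith) hd (fun x hx => hmid x (by
        rw [mem_sphere, dist_eq_norm] at hx
        rw [mem_closedBall, dist_eq_norm]
        have : ‖x - c‖ ≤ ‖x - w‖ + ‖w - c‖ := by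
          calc ‖x - c‖ = ‖(x - w) + (w - c)‖ := by congr 1; ring
            _ ≤ _ := norm_add_le _ _
        linarith))
    rw [(hf w hwb).deriv] at h10
    refine h10.trans ?_
    have e2 : C0 * (24 / δ) * M ^ (1 - δ / 16) / (δ / 2) = 48 * C0 / δ ^ 2 * M ^ (1 - δ / 16) := by
      field_simp
      ring
    rw [e2]
    have h11 : 48 * C0 ≤ 96 * C0 := by linarith
    gcongr

end Pool.Agent.Q144.DJ
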